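import Pool.Agent.W695.KH.Chee2
import Pool.Agent.W695.KH.Wrap
import Pool.Agent.X43.KR.Fin

/-!
# The KLS conjecture in Cheeger form for convex sets symmetric along a tower of partitions

Q1 for all symmetric convex bodies in `ℝ^n` which are invariant under a set `Q` of permutations of the
coordinates, for a tower of `k` partitions of the coordinates with symmetries in `Q`: the blocks of
level `0` are the single coordinates, every block of level `j + 1` is a union of blocks of level `j`,
and any two blocks of level `j` in the same block of level `j + 1` can be exchanged by a permutation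
in `Q` which leaves the other blocks of level `j` in place. Blocks of the same level may have
different sizes and shapes, and no symmetry is assumed between the `q` blocks of the last level.

The constant is `c^(k²) / (√K ∏_j (1 + T_j))` for sets of measure `1/2` (to which the infimum in the
Cheeger constant may be restricted by a known theorem; Minkowski boundary measure), where `K = q`
unconditionally, or `K` is the constant in the KLS inequality on `ℝ^q` for the log-concave densities
invariant under the permutations of the `q` blocks induced by `Q`, and `∑ exp (-T_j m) ≤ 1`, the sum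
over the blocks of level `j + 1` which consist of `m ≥ 2` blocks of level `j`.

Method: the weak Poincare inequality behind `Pool.Agent.Results.MP_6d896a_gt.BlockSymmetric` and the
formalised implication from Poincare to Cheeger inequalities of the starting files (modules `KH`).
-/

set_option autoImplicit false

namespace Pool.Agent.Results.MP_8d00da_gt.BlockSymmetricCheeger

open MeasureTheory Set
open scoped ENNReal InnerProductSpace

/-- `ℝ^n` -/
abbrev E (n : ℕ) : Type := EuclideanSpace ℝ (Fin n)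

/-- `K = -K` does not change under the permutations of the coordinates in `Q`. -/
structure Invariant {n : ℕ} (Q : Set (Equiv.Perm (Fin n))) (K : Set (E n)) : Prop where
  perm : ∀ σ ∈ Q, ∀ x y : E n, (∀ i, y i = x (σ i)) → (x ∈ K ↔ y ∈ K)
  symm : ∀ x ∈ K, -x ∈ K

/-- convex body: compact, convex, with nonempty interior -/
structure ConvexBody {n : ℕ} (K : Set (E n)) : Prop where
  conv : Convex ℝ K
  comp : IsCompact K
  int : (interior K).Nonempty

/-- Minkowski (exterior) boundary measure `μ⁺(A)` -/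
noncomputable def bdry {n : ℕ} (μ : Measure (E n)) (A : Set (E n)) : ℝ≥0∞ :=
  Filter.liminf (fun ε : ℝ => (μ (Metric.thickening ε A) - μ A) / ENNReal.ofReal ε)
    (nhdsWithin 0 (Set.Ioi 0))

/-- the halfspace `⟪u, x⟫ ≤ t` -/
def halfspace {n : ℕ} (u : E n) (t : ℝ) : Set (E n) := {x | inner ℝ u x ≤ t}

/-- the uniform probability measure on `K` -/
noncomputable def unif {n : ℕ} (K : Set (E n)) : Measure (E n) :=
  (volume K)⁻¹ • volume.restrict K

/-- the inequality of Kannan, Lovasz and Simonovits with constant `c` for the uniform measure `μ` on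
`K` and sets of measure `1/2`: if `t min(μ H, 1 - μ H) ≤ μ⁺(H)` for all halfspaces `H` then
`c t / 2 ≤ μ⁺(A)` for all measurable `A` with `μ A = 1/2`. -/
def KLSBoundHalf {n : ℕ} (c : ℝ) (K : Set (E n)) : Prop :=
  ∀ t : ℝ≥0∞, (∀ (u : E n) (r : ℝ), u ≠ 0 →
      t * min (unif K (halfspace u r)) (1 - unif K (halfspace u r)) ≤
        bdry (unif K) (halfspace u r)) →
    ∀ A : Set (E n), MeasurableSet A → unif K A = 1 / 2 →
      ENNReal.ofReal c * t * (1 / 2) ≤ bdry (unif K) A

/-- `ρ` is a log-concave density on `ℝ^n` invariant under the permutations of the coordinates in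
`P`. -/
structure Density {n : ℕ} (P : Set (Equiv.Perm (Fin n))) (ρ : E n → ℝ) : Prop where
  nonneg : ∀ x, 0 ≤ ρ x
  meas : Measurable ρ
  logc : ∀ x y, ∀ t : ℝ, 0 < t → t < 1 → ρ x ^ (1 - t) * ρ y ^ t ≤ ρ ((1 - t) • x + t • y)
  inv : ∀ σ ∈ P, ∀ x y : E n, (∀ i, y i = x (σ i)) → ρ y = ρ x

/-- `Var ⟪θ, X⟫ ≤ s ‖θ‖²` for all `θ`: the covariance matrix of `μ` has norm at most `s`. -/
def CovLe {n : ℕ} (μ : Measure (E n)) (s : ℝ) : Prop :=
  ∀ θ : E n, ProbabilityTheory.evariance (fun x => ⟪θ, x⟫_ℝ) μ ≤ ENNReal.ofReal (s * ‖θ‖ ^ 2)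

/-- Tower of `k` partitions of the coordinates (besides the partition into single coordinates) with
symmetries in `Q`; two coordinates are in the same block of level `j ≤ k` if they have the same label
`lab j`. -/
structure Tower {n : ℕ} (k : ℕ) (lab : ℕ → Fin n → ℕ) (Q : Set (Equiv.Perm (Fin n))) : Prop where
  /-- the blocks of level `0` are the single coordinates -/
  bot : ∀ x y, lab 0 x = lab 0 y → x = y
  /-- a block of level `j + 1` is a union of blocks of level `j` -/
  mono : ∀ j < k, ∀ x y, lab j x = lab j y → lab (j + 1) x = lab (j + 1) y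
  /-- the permutations in `Q` map blocks to blocks -/
  pres : ∀ σ ∈ Q, ∀ j ≤ k, ∀ x y, lab j x = lab j y ↔ lab j (σ x) = lab j (σ y)
  /-- two blocks of level `j` in the same block of level `j + 1` are exchanged by some `σ` in `Q`
  which leaves all the other blocks of level `j` in place -/
  exch : ∀ j < k, ∀ x y, lab (j + 1) x = lab (j + 1) y → lab j x ≠ lab j y → ∃ σ ∈ Q,
    lab j (σ x) = lab j y ∧ lab j (σ y) = lab j x ∧
      ∀ z, lab j z ≠ lab j x → lab j z ≠ lab j y → lab j (σ z) = lab j z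

/-- the number of the blocks of level `j` in the block of level `j + 1` with the label `c` -/
def sub {n : ℕ} (lab : ℕ → Fin n → ℕ) (j c : ℕ) : ℕ :=
  ((Finset.univ.filter fun x => lab (j + 1) x = c).image (lab j)).card

/-- `T_j ≥ 0` and `∑ exp (-T_j m) ≤ 1`, the sum over the blocks of level `j + 1` which consist of
`m ≥ 2` blocks of level `j`, for all `j < k` -/
def Rates {n : ℕ} (k : ℕ) (lab : ℕ → Fin n → ℕ) (T : ℕ → ℝ) : Prop :=
  ∀ j < k, 0 ≤ T j ∧
    ∑ c ∈ (Finset.univ.image (lab (j + 1))).filter (fun c => 2 ≤ sub lab j c),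
      Real.exp (-(T j * sub lab j c)) ≤ 1

/-- the permutations of `q` blocks (the fibres of `top`) induced by the permutations in `Q` -/
def induced {n q : ℕ} (top : Fin n → Fin q) (Q : Set (Equiv.Perm (Fin n))) :
    Set (Equiv.Perm (Fin q)) :=
  {π | ∃ σ ∈ Q, ∀ i, top (σ i) = π (top i)}

/-- the KLS inequality (spectral gap) with the constant `K` for the log-concave probability densities
of bounded support on `ℝ^q` invariant under the permutations in `P`: `Var f ≤ K s E ‖∇ f‖²` when the
covariance matrix has norm at most `s` -/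
def KLS {q : ℕ} (P : Set (Equiv.Perm (Fin q))) (K : ℝ) : Prop :=
  ∀ ρ : E q → ℝ, Density P ρ → (∃ R : ℝ, ∀ x, R < ‖x‖ → ρ x = 0) → ∀ μ : Measure (E q),
    μ = volume.withDensity (fun x => ENNReal.ofReal (ρ x)) → IsProbabilityMeasure μ →
    ∀ s : ℝ, 0 < s → CovLe μ s → ∀ f : E q → ℝ, ContDiff ℝ 1 f →
      ProbabilityTheory.variance f μ ≤ K * s * ∫ x, ‖fderiv ℝ f x‖ ^ 2 ∂μ

/-- **KLS (Cheeger form) for symmetric convex sets invariant along a tower of partitions.** There is
an absolute constant `c > 0` such that for all `k, n ≥ 1`, every tower of `k` partitions of the `n`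
coordinates with symmetries in `Q`, with numbers `T_0, …, T_{k-1}` as in `Rates` and `q` blocks of
level `k` (the fibres of `top`), every `Λ ≥ 1` with `q ≤ Λ`, or such that the KLS inequality with the
constant `Λ` holds on `ℝ^q` for the densities invariant under the permutations of the blocks induced
by `Q`, and every `Q`-invariant convex body `K = -K` in `ℝ^n`: if `t min(μ H, 1 - μ H) ≤ μ⁺(H)` for
all halfspaces `H`, then `μ⁺(A) ≥ c' t / 2` for all measurable `A` with `μ A = 1/2`, where `μ` is
uniform on `K` and `c' = c^(k²) / (√Λ ∏_{j<k} (1 + T_j))`. -/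
theorem result : ∃ c : ℝ, 0 < c ∧ ∀ k n : ℕ, 1 ≤ k → 1 ≤ n → ∀ (lab : ℕ → Fin n → ℕ)
    (Q : Set (Equiv.Perm (Fin n))) (T : ℕ → ℝ), Tower k lab Q → Rates k lab T →
    ∀ (q : ℕ) (top : Fin n → Fin q), Function.Surjective top →
    (∀ x y, top x = top y ↔ lab k x = lab k y) →
    ∀ Λ : ℝ, 1 ≤ Λ → (q : ℝ) ≤ Λ ∨ KLS (induced top Q) Λ →
    ∀ K : Set (E n), ConvexBody K → Invariant Q K →
    KLSBoundHalf (c ^ (k ^ 2) / (Real.sqrt Λ * ∏ j ∈ Finset.range k, (1 + T j))) K := by
  obtain ⟨c₀, hc₀, H⟩ := Pool.Agent.W695.KH.cheeger_half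
  obtain ⟨C₂, hC₂1, h₂⟩ := Pool.Agent.X43.KR.Tow.weakD
  have hC₂ : 0 < C₂ := by linarith
  obtain ⟨c, hc⟩ : ∃ c : ℝ, c = min c₀ 1 / Real.sqrt C₂ := ⟨_, rfl⟩
  have hc0 : 0 < c := by
    rw [hc]
    have := lt_min hc₀ one_pos
    positivity
  refine ⟨c, hc0, ?_⟩
  intro k n hk hn lab Q T hTow hR q top htop htl Λ hΛ hor K hK hinv
  have hyp : Pool.Agent.X43.KR.Tow.Hyp k n lab Q T q top Λ := by
    refine ⟨hk, hn, ⟨hTow.bot, hTow.mono, hTow.pres, hTow.exch⟩, hR, htop, htl, hΛ, ?_⟩
    refine hor.imp id fun h => ?_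
    intro ρ' h1 h2 h3 h4 h5 h6 s' hs' hcov' g hg
    exact h ρ' ⟨h1, h2, h3, h4⟩ h5 _ rfl ⟨h6⟩ s' hs' hcov' g hg
  obtain ⟨F, hF⟩ : ∃ F : ℝ, F = Pool.Agent.X43.KR.Tow.fac k T Λ := ⟨_, rfl⟩
  have hF1 : 1 ≤ F := by rw [hF]; exact Pool.Agent.X43.KR.Tow.fac_one hyp.tc hΛ
  have hfac : 0 < C₂ ^ (k ^ 2) * F := by positivity
  have hne' : Nonempty (Fin n) := ⟨⟨0, hn⟩⟩
  have hD := Pool.Agent.X43.KR.Tow.set_of (D := K) hinv.perm
  have key := H (Fin n) K hK.conv hK.comp hK.int hinv.symm (C₂ ^ (k ^ 2) * F) hfac (by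
      intro A hA hprob hnn hmeas hlc hiso s hs hcov v hv hvb
      rw [hF]
      exact h₂ k n lab Q T q top Λ hyp K hD _ hnn hmeas hlc hiso hprob s hs hcov v hv hvb)
  intro t ht A _ hA2
  have h1 : ENNReal.ofReal (c₀ / Real.sqrt (C₂ ^ (k ^ 2) * F)) * t *
      min (unif K A) (1 - unif K A) ≤ bdry (unif K) A := key (unif K) rfl t ht A hA2
  have hprod : 0 ≤ ∏ j ∈ Finset.range k, (1 + T j) := by
    refine Finset.prod_nonneg fun j hj => ?_
    have := (hR j (Finset.mem_range.1 hj)).1
    linarith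
  have hsqF : Real.sqrt F = Real.sqrt Λ * ∏ j ∈ Finset.range k, (1 + T j) := by
    rw [hF]
    unfold Pool.Agent.X43.KR.Tow.fac
    rw [Real.sqrt_mul (by linarith), Finset.prod_pow, Real.sqrt_sq hprod]
  have hsF0 : 0 ≤ Real.sqrt F := Real.sqrt_nonneg _
  have e : c ^ (k ^ 2) / (Real.sqrt Λ * ∏ j ∈ Finset.range k, (1 + T j)) ≤
      c₀ / Real.sqrt (C₂ ^ (k ^ 2) * F) := by
    rw [← hsqF, Real.sqrt_mul (by positivity), ← div_div]
    refine div_le_div_of_nonneg_right ?_ hsF0
    have h3 : Real.sqrt (C₂ ^ (k ^ 2)) = Real.sqrt C₂ ^ (k ^ 2) := by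
      rw [Real.sqrt_eq_iff_mul_self_eq (by positivity) (by positivity), ← mul_pow,
        Real.mul_self_sqrt hC₂.le]
    rw [h3, hc, div_pow]
    refine div_le_div_of_nonneg_right ?_ (by positivity)
    have hk2 : k ^ 2 ≠ 0 := by positivity
    have h4 : 0 ≤ min c₀ 1 := (lt_min hc₀ one_pos).le
    exact (pow_le_of_le_one h4 (min_le_right _ _) hk2).trans (min_le_left _ _)
  have h2 : min (1 / 2 : ℝ≥0∞) (1 - 1 / 2) = 1 / 2 := by
    have : (1 : ℝ≥0∞) - 1 / 2 = 1 / 2 := by
      rw [one_div]
      exact ENNReal.one_sub_inv_two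
    rw [this, min_self]
  have h3 : min (unif K A) (1 - unif K A) = 1 / 2 := by rw [hA2, h2]
  rw [h3] at h1
  refine le_trans ?_ h1
  gcongr

end Pool.Agent.Results.MP_8d00da_gt.BlockSymmetricCheeger
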