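import Pool.Agent.X166.DS.Final

/-!
# KLS (Cheeger form) for `ℓ_p` sums of 1-symmetric norms and of left-invariant matrix norms

Q1, in the form of the inequality for sets of measure one half, for the uniform measures on the bodies
`{∑_{i < N} M_i(x_i)^p ≤ 1}` and `{M_i(x_i) ≤ 1 for all i < N}` and on their affine images under maps with
kernels of dimension at most `r`. Here the number `N` of the blocks and their dimensions are arbitrary,
`ℝ^d` is identified with the product of the blocks by any linear isomorphism, and each of the norms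
`M_i` on the blocks is 1-symmetric (invariant under permutations and sign changes of the coordinates) or
is a norm on real `a × b` matrices, `1 ≤ b ≤ a`, `3 ≤ a`, with `M_i(U X) = M_i(X)` for all orthogonal `U`
(for instance an orthogonally bi-invariant norm, or the operator norm from an arbitrary normed space of
dimension `b` to `ℓ_2^a`). The constant depends on `p` and `r` only. The starting results
`OneSymmetric` and `OrthogonalInvariant` (of `MP_6d896a_gt`) are about one block.

Method. (1) Let `Φ_i = M_i^p`. The probability measure with density proportional to `exp (-Φ_i)` on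
`ℝ^{m_i}` is 1-symmetric, or it is invariant under `X ↦ U X` on matrices, so it satisfies the Poincare
inequality of the starting results `OneSymmetric` and `OrthogonalInvariant`. In the second case the
covariance matrix is `I ⊗ A`; the right multiplication by `B⁻¹`, `A = Bᵀ B`, preserves the invariance
and makes it the identity. This gives for both kinds the affine invariant inequality
`Var f ≤ C E Var (⟪∇ f, Y⟫)`, `Y` a copy of the random vector, with an absolute constant. (2) This
inequality tensorises (Efron-Stein) and passes to linear images. So it holds for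
`exp (-∑ M_i(x_i)^p)`, for any number of blocks, and for products of unit balls. (3) A density
`exp (-Φ)`, `Φ` homogeneous of degree `p`, is a mixture of the uniform measures on the dilates of
`{Φ ≤ 1}`, and the radial variable is concentrated; so the concentration on a constant scale, relative
to the covariance, passes to `{Φ ≤ 1}`. The steps from concentration to linear images with kernels of
bounded dimension and to the isoperimetric inequality are those of the starting result
`ImagesOfSections` (modules `Y506.PV`).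
-/

set_option autoImplicit false

namespace Pool.Agent.Results.MP_8d00da_gt.DirectSums

open MeasureTheory Set
open scoped ENNReal InnerProductSpace

/-- Euclidean space of dimension `n` -/
abbrev Euc (n : ℕ) : Type := EuclideanSpace ℝ (Fin n)

/-- a norm on `ℝ^m` -/
structure IsNorm {m : ℕ} (M : Euc m → ℝ) : Prop where
  smul : ∀ (r : ℝ) (x : Euc m), M (r • x) = |r| * M x
  add_le : ∀ x y, M (x + y) ≤ M x + M y
  pos : ∀ x, x ≠ 0 → 0 < M x

/-- `M` does not change when the coordinates are permuted and when their signs are changed -/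
def OneSymmetric {m : ℕ} (M : Euc m → ℝ) : Prop :=
  ∀ (σ : Equiv.Perm (Fin m)) (x y : Euc m), (∀ i, |y i| = |x (σ i)|) → M y = M x

/-- after a linear identification `e` of `ℝ^m` with the real `a × b` matrices, `3 ≤ a`, `1 ≤ b ≤ a`, the
function `M` does not change when a matrix `X` is replaced by `U X`, `U` orthogonal -/
def LeftInvariant {m : ℕ} (M : Euc m → ℝ) : Prop :=
  ∃ (a b : ℕ) (e : Euc m ≃ₗ[ℝ] Matrix (Fin a) (Fin b) ℝ), 3 ≤ a ∧ 1 ≤ b ∧ b ≤ a ∧
    ∀ U ∈ Matrix.orthogonalGroup (Fin a) ℝ, ∀ x, M (e.symm (U * e x)) = M x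

/-- the bodies `{x | ∑_{i < N} M_i(x_i)^p ≤ 1}` and `{x | M_i(x_i) ≤ 1 for all i < N}`, `N` arbitrary,
where `x ↦ (x_i)` is a linear isomorphism of `ℝ^d` and `∏ ℝ^{m_i}`, `m_i ≥ 1`, and every norm `M_i` is
`OneSymmetric` or `LeftInvariant` -/
def DirectSum (p : ℝ) {d : ℕ} (K : Set (Euc d)) : Prop :=
  ∃ (N : ℕ) (m : Fin N → ℕ) (M : ∀ i, Euc (m i) → ℝ) (L : Euc d ≃ₗ[ℝ] (∀ i, Euc (m i))),
    (∀ i, 1 ≤ m i) ∧ (∀ i, IsNorm (M i)) ∧ (∀ i, OneSymmetric (M i) ∨ LeftInvariant (M i)) ∧
    (K = {x | ∑ i, M i (L x i) ^ p ≤ 1} ∨ K = {x | ∀ i, M i (L x i) ≤ 1})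

/-- Minkowski (exterior) boundary measure `μ⁺(A)` -/
noncomputable def bdry {n : ℕ} (μ : Measure (Euc n)) (A : Set (Euc n)) : ℝ≥0∞ :=
  Filter.liminf (fun ε : ℝ => (μ (Metric.thickening ε A) - μ A) / ENNReal.ofReal ε)
    (nhdsWithin 0 (Set.Ioi 0))

/-- the halfspace `⟪u, x⟫ ≤ b` -/
def halfspace {n : ℕ} (u : Euc n) (b : ℝ) : Set (Euc n) := {x | inner ℝ u x ≤ b}

/-- the uniform probability measure on `K` -/
noncomputable def unif {n : ℕ} (K : Set (Euc n)) : Measure (Euc n) :=
  (volume K)⁻¹ • volume.restrict K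

/-- the inequality of Kannan, Lovasz and Simonovits with constant `c` for the uniform measure `μ` on
`K` and sets of measure one half: if `t min(μ H, 1 - μ H) ≤ μ⁺(H)` for all halfspaces `H` then
`c t min(μ A, 1 - μ A) ≤ μ⁺(A)` for all measurable `A` with `μ A = 1/2` -/
def KLSHalf {n : ℕ} (c : ℝ) (K : Set (Euc n)) : Prop :=
  ∀ t : ℝ≥0∞, (∀ (u : Euc n) (b : ℝ), u ≠ 0 →
      t * min (unif K (halfspace u b)) (1 - unif K (halfspace u b)) ≤
        bdry (unif K) (halfspace u b)) →
    ∀ A : Set (Euc n), MeasurableSet A → unif K A = 1 / 2 →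
      ENNReal.ofReal c * t * min (unif K A) (1 - unif K A) ≤ bdry (unif K) A

theorem cls_of {p : ℝ} {m : ℕ} {K : Set (Euc m)} (h : DirectSum p K) :
    Pool.Agent.X166.DS.Cls p m K := by
  obtain ⟨N, m, M, L, hm, hM, hB, hK⟩ := h
  exact ⟨N, m, M, L, hm, fun i => ⟨(hM i).smul, (hM i).add_le, (hM i).pos⟩, hB, hK⟩

/-- the functional inequality for affine images -/
theorem star_of {c : ℝ} {r : ℕ} {p : ℝ} (H : ∀ (n m : ℕ) (K : Set (Euc m))
    (A : Euc m →ₗ[ℝ] Euc n), 1 ≤ n → m ≤ n + r → Pool.Agent.X166.DS.Cls p m K →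
    Function.Surjective A → IsCompact (A '' K) ∧ Convex ℝ (A '' K) ∧ (interior (A '' K)).Nonempty ∧
    Pool.Agent.Y506.RG.Star c (Pool.Agent.Y506.PV.ind (A '' K))) {m n : ℕ} {K : Set (Euc m)}
    (T : Euc m →ᵃ[ℝ] Euc n) (hn : 1 ≤ n) (hm : m ≤ n + r) (hK : DirectSum p K)
    (hT : Function.Surjective T) : IsCompact (T '' K) ∧ Convex ℝ (T '' K) ∧
    (interior (T '' K)).Nonempty ∧
    Pool.Agent.Y506.RG.Star c (Pool.Agent.Y506.PV.ind (T '' K)) := by
  have hTL : ∀ x, T x = T.linear x + T 0 := fun x => by
    have h := T.map_vadd 0 x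
    simpa [vadd_eq_add] using h
  have hA : Function.Surjective T.linear := by
    intro y
    obtain ⟨x, hx⟩ := hT (y + T 0)
    refine ⟨x, ?_⟩
    have h := hTL x
    rw [hx] at h
    exact (add_right_cancel h).symm
  obtain ⟨h1, h2, h3, h4⟩ := H n m K T.linear hn hm (cls_of hK) hA
  have he : T '' K = (fun y => y + T 0) '' (T.linear '' K) := by
    rw [image_image]
    exact image_congr fun x _ => hTL x
  have hcp : IsCompact (T '' K) := by
    rw [he]
    exact h1.image (by fun_prop)
  refine ⟨hcp, ?_, ?_, ?_⟩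
  · rw [he]
    have h := h2.translate (T 0)
    have e : (fun y => y + T 0) = fun y => T 0 + y := funext fun y => add_comm _ _
    rw [e]
    exact h
  · rw [he]
    have hop : IsOpen ((fun y => y + T 0) '' interior (T.linear '' K)) :=
      (Homeomorph.addRight (T 0)).isOpenMap _ isOpen_interior
    exact (h3.image _).mono (interior_maximal (image_mono interior_subset) hop)
  · rw [he]
    exact Pool.Agent.Y506.PV.star_trans _ _ (Pool.Agent.Y506.PV.adm_ind _ h1.measurableSet
      h1.isBounded (Pool.Agent.Y506.PV.vol_pos h3)) h4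

/-- **KLS (Cheeger form) for `ℓ_p` sums of symmetric blocks.** For all `r` and `p ≥ 1` there is a constant
`c > 0` such that for all `n ≥ 1`, all affine maps `T` of `ℝ^m` onto `ℝⁿ`, `m ≤ n + r`, and all bodies
`K ⊂ ℝ^m` of the class `DirectSum p`, the body `T '' K` satisfies the inequality of Kannan, Lovasz and
Simonovits with constant `c` for all sets of measure one half. -/
theorem result : ∀ (r : ℕ) (p : ℝ), 1 ≤ p → ∃ c : ℝ, 0 < c ∧
    ∀ (m n : ℕ) (K : Set (Euc m)) (T : Euc m →ᵃ[ℝ] Euc n), 1 ≤ n → m ≤ n + r →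
    DirectSum p K → Function.Surjective T → KLSHalf c (T '' K) := by
  intro r p hp
  obtain ⟨c, hc, H⟩ := Pool.Agent.X166.DS.fin_ds r p hp
  obtain ⟨c', hc', H'⟩ := Pool.Agent.Y532.PV.che c hc
  refine ⟨c', hc', fun m n K T hn hm hK hT => ?_⟩
  obtain ⟨h1, h2, h3, h4⟩ := star_of H T hn hm hK hT
  intro t ht A hA hA2
  have hprob : IsProbabilityMeasure (unif (T '' K)) :=
    Pool.Agent.Y506.KS.unif_prob (Pool.Agent.Y506.PV.vol_pos h3) h1.measure_lt_top.ne
  have key := H' n _ h1 h2 h3 h4 (unif (T '' K)) rfl t ht A hA2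
  refine le_trans ?_ key
  calc ENNReal.ofReal c' * t * min (unif (T '' K) A) (1 - unif (T '' K) A)
      ≤ ENNReal.ofReal c' * t * 1 := mul_le_mul_right ((min_le_left _ _).trans prob_le_one) _
    _ = _ := mul_one _

end Pool.Agent.Results.MP_8d00da_gt.DirectSums
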