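import Pool.Agent.W695.KH.Chee2
import Pool.Agent.W695.KH.Wrap
import Pool.Agent.X43.RF.E

/-!
# The KLS conjecture in Cheeger form for convex bodies with radial blocks of vectors and free
coordinates

Q1 for all symmetric convex bodies in `(ℝ^{m_1})^{k_1} × ⋯ × (ℝ^{m_b})^{k_b} × ℝ^q` for which
membership depends on the first coordinates only through the norms of the vectors and does not change
when the vectors of the same block are permuted; besides `K = -K` there is no condition on the `q`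
free coordinates.

The constant is `c / ((1 + T) √Λ)` for sets of measure `1/2` (to which the infimum in the Cheeger
constant may be restricted by a known theorem; Minkowski boundary measure), whenever
`∑_β exp (- T k_β m_β) ≤ 1`, where `Λ = q` unconditionally, or `Λ` is the constant in the KLS
inequality for the log-concave densities on `ℝ^q`, or, if `K` is also invariant under a set `Γ` of
isometries of the free coordinates, for the `Γ`-invariant log-concave densities on `ℝ^q`.

Method: the weak Poincare inequality behind `Pool.Agent.Results.MP_6d896a_gt.FreeDirections` and the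
formalised implication from Poincare to Cheeger inequalities of the starting files (modules `KH`).
-/

set_option autoImplicit false

namespace Pool.Agent.Results.MP_8d00da_gt.FreeDirectionsCheeger

open MeasureTheory Set
open scoped ENNReal InnerProductSpace

/-- `b` blocks, the block `β` consists of `k β` vectors of `ℝ^{m β}`, and `q` free coordinates:
`x (inl ⟨β, j, i⟩)` is the coordinate `i` of the vector `j` of the block `β`, `x (inr i)` the free
coordinate `i` -/
abbrev Space (b : ℕ) (k m : Fin b → ℕ) (q : ℕ) : Type :=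
  EuclideanSpace ℝ ((Σ β : Fin b, Fin (k β) × Fin (m β)) ⊕ Fin q)

/-- `ℝ^q` -/
abbrev E (q : ℕ) : Type := EuclideanSpace ℝ (Fin q)

/-- the Euclidean norm of the vector `j` of the block `β` -/
noncomputable def vecNorm {b q : ℕ} {k m : Fin b → ℕ} (x : Space b k m q) (β : Fin b)
    (j : Fin (k β)) : ℝ := Real.sqrt (∑ i, x (Sum.inl ⟨β, j, i⟩) ^ 2)

/-- the free coordinates -/
noncomputable def free {b q : ℕ} {k m : Fin b → ℕ} (x : Space b k m q) : E q :=
  WithLp.toLp 2 fun i => x (Sum.inr i)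

/-- `K = -K`, membership in `K` depends on the coordinates in the blocks only through the norms of the
vectors, does not change when the vectors inside the blocks are permuted, and does not change under
the isometries in `Γ` of the free coordinates. -/
structure Invariant {b q : ℕ} {k m : Fin b → ℕ} (Γ : Set (E q ≃ₗᵢ[ℝ] E q))
    (K : Set (Space b k m q)) : Prop where
  radial : ∀ σ : ∀ β, Equiv.Perm (Fin (k β)), ∀ x y : Space b k m q,
    (∀ β j, vecNorm y β j = vecNorm x β (σ β j)) → free y = free x → (x ∈ K ↔ y ∈ K)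
  inv : ∀ g ∈ Γ, ∀ x y : Space b k m q, (∀ i, y (Sum.inl i) = x (Sum.inl i)) →
    free y = g (free x) → (x ∈ K ↔ y ∈ K)
  symm : ∀ x ∈ K, -x ∈ K

/-- convex body: compact, convex, with nonempty interior -/
structure ConvexBody {κ : Type} [Fintype κ] (K : Set (EuclideanSpace ℝ κ)) : Prop where
  conv : Convex ℝ K
  comp : IsCompact K
  int : (interior K).Nonempty

/-- Minkowski (exterior) boundary measure `μ⁺(A)` -/
noncomputable def bdry {κ : Type} [Fintype κ] (μ : Measure (EuclideanSpace ℝ κ))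
    (A : Set (EuclideanSpace ℝ κ)) : ℝ≥0∞ :=
  Filter.liminf (fun ε : ℝ => (μ (Metric.thickening ε A) - μ A) / ENNReal.ofReal ε)
    (nhdsWithin 0 (Set.Ioi 0))

/-- the halfspace `⟪u, x⟫ ≤ t` -/
def halfspace {κ : Type} [Fintype κ] (u : EuclideanSpace ℝ κ) (t : ℝ) :
    Set (EuclideanSpace ℝ κ) := {x | inner ℝ u x ≤ t}

/-- the uniform probability measure on `K` -/
noncomputable def unif {κ : Type} [Fintype κ] (K : Set (EuclideanSpace ℝ κ)) :
    Measure (EuclideanSpace ℝ κ) := (volume K)⁻¹ • volume.restrict K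

/-- the inequality of Kannan, Lovasz and Simonovits with constant `c` for the uniform measure `μ` on
`K` and sets of measure `1/2`: if `t min(μ H, 1 - μ H) ≤ μ⁺(H)` for all halfspaces `H` then
`c t / 2 ≤ μ⁺(A)` for all measurable `A` with `μ A = 1/2`. -/
def KLSBoundHalf {κ : Type} [Fintype κ] (c : ℝ) (K : Set (EuclideanSpace ℝ κ)) : Prop :=
  ∀ t : ℝ≥0∞, (∀ (u : EuclideanSpace ℝ κ) (r : ℝ), u ≠ 0 →
      t * min (unif K (halfspace u r)) (1 - unif K (halfspace u r)) ≤
        bdry (unif K) (halfspace u r)) →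
    ∀ A : Set (EuclideanSpace ℝ κ), MeasurableSet A → unif K A = 1 / 2 →
      ENNReal.ofReal c * t * (1 / 2) ≤ bdry (unif K) A

/-- `Var ⟪θ, X⟫ ≤ s ‖θ‖²` for all `θ`: the covariance matrix of `μ` has norm at most `s`. -/
def CovLe {κ : Type} [Fintype κ] (μ : Measure (EuclideanSpace ℝ κ)) (s : ℝ) : Prop :=
  ∀ θ : EuclideanSpace ℝ κ, ProbabilityTheory.evariance (fun x => ⟪θ, x⟫_ℝ) μ ≤
    ENNReal.ofReal (s * ‖θ‖ ^ 2)

/-- `ρ` is a log-concave density on `ℝ^q` invariant under the isometries in `Γ`. -/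
structure FreeDensity {q : ℕ} (Γ : Set (E q ≃ₗᵢ[ℝ] E q)) (ρ : E q → ℝ) : Prop where
  nonneg : ∀ x, 0 ≤ ρ x
  meas : Measurable ρ
  logc : ∀ x y, ∀ t : ℝ, 0 < t → t < 1 → ρ x ^ (1 - t) * ρ y ^ t ≤ ρ ((1 - t) • x + t • y)
  inv : ∀ g ∈ Γ, ∀ x, ρ (g x) = ρ x

/-- the KLS inequality (spectral gap) with the constant `K` for the log-concave probability densities
of bounded support on `ℝ^q` invariant under the isometries in `Γ`: `Var f ≤ K s E ‖∇ f‖²` when the
covariance matrix has norm at most `s` -/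
def KLS {q : ℕ} (Γ : Set (E q ≃ₗᵢ[ℝ] E q)) (K : ℝ) : Prop :=
  ∀ ρ : E q → ℝ, FreeDensity Γ ρ → (∃ R : ℝ, ∀ x, R < ‖x‖ → ρ x = 0) → ∀ μ : Measure (E q),
    μ = volume.withDensity (fun x => ENNReal.ofReal (ρ x)) → IsProbabilityMeasure μ →
    ∀ s : ℝ, 0 < s → CovLe μ s → ∀ f : E q → ℝ, ContDiff ℝ 1 f →
      ProbabilityTheory.variance f μ ≤ K * s * ∫ x, ‖fderiv ℝ f x‖ ^ 2 ∂μ

/-- **KLS (Cheeger form) for convex bodies with radial blocks of vectors and free coordinates.** There
is an absolute constant `c > 0` such that for all `b ≥ 1`, `q ≥ 0`, all `k β, m β ≥ 1` (`β < b`), all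
`T ≥ 0` with `∑_β exp (- T k_β m_β) ≤ 1`, every set `Γ` of linear isometries of `ℝ^q` (for example the
empty set), every `Λ ≥ 1` with `q ≤ Λ`, or such that the KLS inequality holds with the constant `Λ` for
the `Γ`-invariant densities on `ℝ^q`, and every convex body `K = -K` in `∏_β (ℝ^{m β})^{k β} × ℝ^q` for
which membership depends on the coordinates in the blocks only through the norms of the vectors, is
symmetric inside the blocks and `Γ`-invariant in the free coordinates: if
`t min(μ H, 1 - μ H) ≤ μ⁺(H)` for all halfspaces `H`, then `μ⁺(A) ≥ c' t / 2` for all measurable `A`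
with `μ A = 1/2`, where `μ` is uniform on `K` and `c' = c / ((1 + T) √Λ)`. -/
theorem result : ∃ c : ℝ, 0 < c ∧ ∀ (b : ℕ) (k m : Fin b → ℕ) (q : ℕ), 1 ≤ b → (∀ β, 1 ≤ k β) →
    (∀ β, 1 ≤ m β) → ∀ T : ℝ, 0 ≤ T → ∑ β, Real.exp (-(T * (k β * m β))) ≤ 1 →
    ∀ (Γ : Set (E q ≃ₗᵢ[ℝ] E q)) (Λ : ℝ), 1 ≤ Λ → (q : ℝ) ≤ Λ ∨ KLS Γ Λ →
    ∀ K : Set (Space b k m q), ConvexBody K → Invariant Γ K →
    KLSBoundHalf (c / ((1 + T) * Real.sqrt Λ)) K := by
  obtain ⟨c, hc, H⟩ := Pool.Agent.W695.KH.cheeger_half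
  obtain ⟨C₂, hC₂1, h₂⟩ := Pool.Agent.X43.RF.weakJ
  have hC₂ : 0 < C₂ := by linarith
  refine ⟨c / Real.sqrt C₂, by positivity, ?_⟩
  intro b k m q hb hk hm T hT0 hT Γ Λ hΛ hor K hK hinv
  have hyp : Pool.Agent.X43.RF.Hyp b k m T q Γ Λ := by
    refine ⟨hk, hm, hT0, hT, hΛ, ?_⟩
    refine hor.imp id fun h => ?_
    intro ρ' h1 h2 h3 h4 h5 h6 s' hs' hcov' g hg
    exact h ρ' ⟨h1, h2, h3, h4⟩ h5 _ rfl ⟨h6⟩ s' hs' hcov' g hg
  have hfac : 0 < C₂ * (1 + T) ^ 2 * Λ := by positivity
  have hne' : Nonempty ((Σ β : Fin b, Fin (k β) × Fin (m β)) ⊕ Fin q) :=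
    ⟨Sum.inl ⟨⟨0, hb⟩, ⟨0, hk _⟩, ⟨0, hm _⟩⟩⟩
  have hD := Pool.Agent.X43.RF.set_of (Γ := Γ) (D := K)
    (fun F x y h1 h2 => hinv.radial F x y h1 (by
      ext j
      exact h2 j)) fun g hg x y h1 h2 => hinv.inv g hg x y h1 h2
  have key := H ((Σ β : Fin b, Fin (k β) × Fin (m β)) ⊕ Fin q) K hK.conv hK.comp hK.int hinv.symm
    (C₂ * (1 + T) ^ 2 * Λ) hfac (by
      intro A hA hprob hnn hmeas hlc hiso s hs hcov v hv hvb
      exact h₂ b k m T q Γ Λ hyp K hD _ hnn hmeas hlc hiso hprob s hs hcov v hv hvb)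
  intro t ht A _ hA2
  have h1 : ENNReal.ofReal (c / Real.sqrt (C₂ * (1 + T) ^ 2 * Λ)) * t *
      min (unif K A) (1 - unif K A) ≤ bdry (unif K) A := key (unif K) rfl t ht A hA2
  have e : c / Real.sqrt (C₂ * (1 + T) ^ 2 * Λ) =
      c / Real.sqrt C₂ / ((1 + T) * Real.sqrt Λ) := by
    rw [Real.sqrt_mul (by positivity), Real.sqrt_mul (by positivity), Real.sqrt_sq (by linarith),
      div_div, mul_assoc]
  rw [e] at h1
  have h2 : min (1 / 2 : ℝ≥0∞) (1 - 1 / 2) = 1 / 2 := by
    have : (1 : ℝ≥0∞) - 1 / 2 = 1 / 2 := by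
      rw [one_div]
      exact ENNReal.one_sub_inv_two
    rw [this, min_self]
  have h3 : min (unif K A) (1 - unif K A) = 1 / 2 := by rw [hA2, h2]
  rw [h3] at h1
  exact h1

end Pool.Agent.Results.MP_8d00da_gt.FreeDirectionsCheeger
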